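import Pool.Agent.D0H93.ZE.Fin
import Pool.Agent.W282.ZP.Geo

/-!
# Finiteness of the special subvarieties and the atypical subvarieties which meet the region
-/

set_option autoImplicit false

namespace Pool.Agent.D0H93.ZE

open UpperHalfPlane H294ZP Pool.Agent.N135.ZO MvPolynomial
open Pool.Agent.W282.ZP (idealOf mem_idealOf zcl zdim idealOf_zcl)

variable {V : ValuationSubring ℂ} {p : ℕ}

/-- `A` is a component of `Y` -/
def IsComp {n : ℕ} (Y A : Set (Fin n → ℂ)) : Prop :=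
  A ⊆ Y ∧ zcl A ⊆ A ∧ (idealOf A).IsPrime ∧
    ∀ A' : Set (Fin n → ℂ), A ⊆ A' → A' ⊆ Y → zcl A' ⊆ A' → (idealOf A').IsPrime → A' ⊆ A

theorem idealOf_anti {n : ℕ} {A B : Set (Fin n → ℂ)} (h : A ⊆ B) : idealOf B ≤ idealOf A := by
  intro f hf
  rw [mem_idealOf] at hf ⊢
  exact fun x hx => hf x (h hx)

theorem closed_eq {n : ℕ} {A B : Set (Fin n → ℂ)} (hA : zcl A ⊆ A) (hB : zcl B ⊆ B)
    (h : idealOf A = idealOf B) : A = B := by
  have key : ∀ {A B : Set (Fin n → ℂ)}, zcl B ⊆ B → idealOf A = idealOf B → A ⊆ B := by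
    intro A B hB h x hx
    refine hB fun f hf => ?_
    rw [← h] at hf
    exact mem_idealOf.1 hf x hx
  exact Set.Subset.antisymm (key hB h) (key hA h.symm)

theorem idealOf_zeros {n : ℕ} (P : Ideal (MvPolynomial (Fin n) ℂ)) (hP : P.IsPrime) :
    idealOf {x : Fin n → ℂ | ∀ f ∈ P, eval x f = 0} = P := by
  have h1 := vanishingIdeal_zeroLocus_eq_radical (K := ℂ) P
  rw [hP.radical] at h1
  have e : ∀ (x : Fin n → ℂ) (g : MvPolynomial (Fin n) ℂ), aeval x g = eval x g := fun x g => by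
    rw [aeval_eq_eval]
  ext f
  have h2 : f ∈ P ↔ f ∈ vanishingIdeal ℂ (zeroLocus ℂ P) := by rw [h1]
  rw [mem_idealOf, h2, mem_vanishingIdeal_iff]
  constructor
  · intro h x hx
    rw [e]
    exact h x fun g hg => by rw [← e]; exact hx g hg
  · intro h x hx
    rw [← e]
    exact h x fun g hg => by rw [e]; exact hx g hg

theorem finite_comp {n : ℕ} (Y : Set (Fin n → ℂ)) (hY : zcl Y ⊆ Y) : {A | IsComp Y A}.Finite := by
  have hfin := Ideal.finite_minimalPrimes_of_isNoetherianRing (MvPolynomial (Fin n) ℂ) (idealOf Y)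
  refine Set.Finite.of_finite_image (f := idealOf) (hfin.subset ?_) ?_
  · rintro _ ⟨A, ⟨hAY, hcl, hpr, hmax⟩, rfl⟩
    refine ⟨⟨hpr, idealOf_anti hAY⟩, ?_⟩
    rintro P ⟨hP, hYP⟩ hPA
    have h1 := idealOf_zeros P hP
    have h2 := hmax {x : Fin n → ℂ | ∀ f ∈ P, eval x f = 0}
      (fun x hx f hf => mem_idealOf.1 (hPA hf) x hx)
      (fun x hx => hY fun f hf => hx f (hYP hf))
      (fun x hx f hf => hx f (by rw [h1]; exact hf))
      (by rw [h1]; exact hP)
    have h3 := idealOf_anti h2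
    rwa [h1] at h3
  · intro A hA B hB h
    exact closed_eq hA.2.1 hB.2.1 h

theorem zdim_mono {n : ℕ} {A X : Set (Fin n → ℂ)} (hA : (idealOf A).IsPrime)
    (hX : (idealOf X).IsPrime) (h : A ⊆ X) : zdim A ≤ zdim X := by
  classical
  obtain ⟨Ω, _, _, z, hz, T, hT, hdim⟩ := Pool.Agent.W282.ZP.generic_point (idealOf A)
  refine hdim.trans ?_
  have hind : AlgebraicIndependent ℂ
      (fun j : T => (Ideal.Quotient.mk (idealOf X) (MvPolynomial.X (j : Fin n)))) := by
    rw [algebraicIndependent_iff]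
    intro f hf
    have h1 : aeval (fun j : T => (Ideal.Quotient.mk (idealOf X) (MvPolynomial.X (j : Fin n)))) f =
        Ideal.Quotient.mk (idealOf X) (rename (Subtype.val : T → Fin n) f) := by
      have h2 : (aeval (fun j : T => (Ideal.Quotient.mk (idealOf X) (MvPolynomial.X (j : Fin n)))) :
          MvPolynomial T ℂ →ₐ[ℂ] _) = (Ideal.Quotient.mkₐ ℂ (idealOf X)).comp
            (rename (Subtype.val : T → Fin n)) := by
        ext j
        simp
      rw [h2]
      rfl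
    rw [h1, Ideal.Quotient.eq_zero_iff_mem] at hf
    have h3 := idealOf_anti h hf
    have h4 := (hz _).2 h3
    rw [aeval_rename] at h4
    exact algebraicIndependent_iff.1 hT f h4
  have hnt : Nontrivial (MvPolynomial (Fin n) ℂ ⧸ idealOf X) := Ideal.Quotient.nontrivial_iff.2 hX.ne_top
  have h5 := hind.cardinalMk_le_trdeg
  unfold zdim
  simpa using h5

/-- special subvarieties as sets -/
def IsSp {n : ℕ} (W : Set (Fin n → ℂ)) : Prop := ∃ (r : ℕ) (Z : SpecialDatum n r), W = Z.locus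

theorem special_count (hl : p.Prime) (hl2 : p ≠ 2) (hpV : V.valuation (p : ℂ) < 1)
    (L : Subfield ℂ) (hfin : Finite (intRing V L ⧸ Ideal.span {((p : ℕ) : intRing V L)})) (n : ℕ) :
    {W : Set (Fin n → ℂ) | IsSp W ∧ (W ∩ Om V p L n).Nonempty}.Finite ∧
      {W : Set (Fin n → ℂ) | IsSp W ∧ (W ∩ Om V p L n).Nonempty}.ncard ≤
        (Nat.card (intRing V L ⧸ Ideal.span {((p : ℕ) : intRing V L)}) + 1) ^ n := by
  classical
  obtain ⟨h1, h2⟩ := sm_card hl hl2 hpV L hfin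
  have := h1.fintype
  let g : (Fin n → Option (sm V p L)) → Set (Fin n → ℂ) := fun f =>
    {y | ∀ i c, f i = some c → y i = (c : ℂ)}
  have hsub : {W : Set (Fin n → ℂ) | IsSp W ∧ (W ∩ Om V p L n).Nonempty} ⊆ Set.range g := by
    rintro W ⟨⟨r, Z, rfl⟩, x, hxZ, hxΩ⟩
    obtain ⟨h3, h4⟩ := cls_facts hl hl2 hpV Z hxZ hxΩ
    refine ⟨fun i => if h : Z.cls i = none then some ⟨jj (Z.cm i), h3 i h⟩ else none, ?_⟩
    rw [locus_eq Z h4]
    ext y
    constructor
    · intro hy i hi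
      have := hy i ⟨jj (Z.cm i), h3 i hi⟩ (dif_pos hi)
      exact this
    · intro hy i c hc
      beta_reduce at hc
      by_cases h : Z.cls i = none
      · rw [dif_pos h] at hc
        have h5 := Option.some_injective _ hc
        rw [← h5]
        exact hy i h
      · rw [dif_neg h] at hc
        exact absurd hc (by simp)
  refine ⟨(Set.finite_range g).subset hsub, ?_⟩
  calc {W : Set (Fin n → ℂ) | IsSp W ∧ (W ∩ Om V p L n).Nonempty}.ncard ≤ (Set.range g).ncard :=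
        Set.ncard_le_ncard hsub (Set.finite_range g)
    _ ≤ Nat.card (Fin n → Option (sm V p L)) := by
        rw [← Set.image_univ, ← Set.ncard_univ]
        exact Set.ncard_image_le Set.finite_univ
    _ = ((sm V p L).ncard + 1) ^ n := by
        rw [Nat.card_eq_fintype_card, Fintype.card_fun, Fintype.card_option, Fintype.card_fin,
          ← Nat.card_eq_fintype_card, Nat.card_coe_set_eq]
    _ ≤ _ := Nat.pow_le_pow_left (by omega) n

theorem locus_closed {n r : ℕ} (Z : SpecialDatum n r)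
    (hinj : ∀ i j, Z.cls i ≠ none → Z.cls i = Z.cls j → i = j) : zcl Z.locus ⊆ Z.locus := by
  rw [locus_eq Z hinj]
  intro x hx i hi
  have h1 := hx (X i - C (jj (Z.cm i))) (by
    rw [mem_idealOf]
    intro y hy
    rw [map_sub, eval_X, eval_C, hy i hi, sub_self])
  rw [map_sub, eval_X, eval_C] at h1
  exact sub_eq_zero.1 h1

theorem zcl_inter {n : ℕ} {A B : Set (Fin n → ℂ)} (hA : zcl A ⊆ A) (hB : zcl B ⊆ B) :
    zcl (A ∩ B) ⊆ A ∩ B := fun x hx =>
  ⟨hA fun f hf => hx f (idealOf_anti Set.inter_subset_left hf),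
    hB fun f hf => hx f (idealOf_anti Set.inter_subset_right hf)⟩

/-- `A` is an atypical subvariety of `X` -/
def IsAtyp {n : ℕ} (X A : Set (Fin n → ℂ)) : Prop :=
  ∃ (r : ℕ) (Z : SpecialDatum n r), IsComp (X ∩ Z.locus) A ∧
    zdim X + (r : Cardinal) < zdim A + (n : Cardinal)

theorem atyp_finite (hl : p.Prime) (hl2 : p ≠ 2) (hpV : V.valuation (p : ℂ) < 1)
    (L : Subfield ℂ) (hfin : Finite (intRing V L ⧸ Ideal.span {((p : ℕ) : intRing V L)})) {n : ℕ}
    (X : Set (Fin n → ℂ)) (hX : zcl X ⊆ X) :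
    {A : Set (Fin n → ℂ) | IsAtyp X A ∧ (A ∩ Om V p L n).Nonempty}.Finite := by
  classical
  have h1 := (special_count hl hl2 hpV L hfin n).1
  have h2 : (⋃ W ∈ {W : Set (Fin n → ℂ) | (IsSp W ∧ (W ∩ Om V p L n).Nonempty) ∧ zcl W ⊆ W},
      {A | IsComp (X ∩ W) A}).Finite := by
    refine Set.Finite.biUnion (h1.subset fun W hW => hW.1) ?_
    rintro W ⟨-, hW⟩
    exact finite_comp _ (zcl_inter hX hW)
  refine h2.subset ?_
  rintro A ⟨⟨r, Z, hA, -⟩, x, hxA, hxΩ⟩
  have hxZ : x ∈ Z.locus := (hA.1 hxA).2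
  obtain ⟨-, h4⟩ := cls_facts hl hl2 hpV Z hxZ hxΩ
  exact Set.mem_biUnion ⟨⟨⟨r, Z, rfl⟩, x, hxZ, hxΩ⟩, locus_closed Z h4⟩ hA

theorem proper_of_atyp (hl : p.Prime) (hl2 : p ≠ 2) (hpV : V.valuation (p : ℂ) < 1)
    (L : Subfield ℂ) {n : ℕ} {X A : Set (Fin n → ℂ)} (hXp : (idealOf X).IsPrime)
    (hA : IsAtyp X A) (hne : (A ∩ Om V p L n).Nonempty) :
    ∃ W, IsSp W ∧ (W ∩ Om V p L n).Nonempty ∧ W ≠ Set.univ ∧ A ⊆ W := by
  classical
  obtain ⟨r, Z, hcomp, hlt⟩ := hA
  obtain ⟨x, hxA, hxΩ⟩ := hne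
  have hxZ : x ∈ Z.locus := (hcomp.1 hxA).2
  obtain ⟨h3, h4⟩ := cls_facts hl hl2 hpV Z hxZ hxΩ
  refine ⟨Z.locus, ⟨r, Z, rfl⟩, ⟨x, hxZ, hxΩ⟩, ?_, fun y hy => (hcomp.1 hy).2⟩
  intro huniv
  have hnone : ∀ i, Z.cls i ≠ none := by
    intro i hi
    have h5 : (fun _ => jj (Z.cm i) + 1 : Fin n → ℂ) ∈ Z.locus := by
      rw [huniv]
      exact Set.mem_univ _
    rw [locus_eq Z h4] at h5
    have h6 := h5 i hi
    simp at h6
  have hnr : n ≤ r := by
    have hinj : Function.Injective fun i => (Z.cls i).get (Option.isSome_iff_ne_none.2 (hnone i)) := by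
      intro i j hij
      refine h4 i j (hnone i) ?_
      simp only at hij
      rw [← Option.some_get (Option.isSome_iff_ne_none.2 (hnone i)), hij, Option.some_get]
    have := Fintype.card_le_of_injective _ hinj
    simpa using this
  have h5 := zdim_mono hcomp.2.2.1 hXp (fun y hy => (hcomp.1 hy).1)
  have h6 : zdim A + (n : Cardinal) ≤ zdim X + (r : Cardinal) :=
    add_le_add h5 (by exact_mod_cast hnr)
  exact absurd hlt (not_lt.2 h6)

end Pool.Agent.D0H93.ZE
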