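import Pool.Agent.D0H93.ZE.Surj
import Pool.Agent.N135.ZO.Loc

/-!
# Special subvarieties which meet an ordinary residue polydisc
-/

set_option autoImplicit false

namespace Pool.Agent.D0H93.ZE

open UpperHalfPlane H294ZP Pool.Agent.N135.ZO

variable {V : ValuationSubring ℂ} {p : ℕ}

/-- the integral elements of `L` -/
def intRing (V : ValuationSubring ℂ) (L : Subfield ℂ) : Subring ℂ := V.toSubring ⊓ L.toSubring

/-- an ordinary CM point whose coordinate is not congruent to `0` or `1728` -/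
structure OrdPt (V : ValuationSubring ℂ) (p : ℕ) (τ : ℍ) : Prop where
  cm : IsCM τ
  ord : OrdAt p τ
  n0 : V.valuation (jj τ) = 1
  n1 : V.valuation (jj τ - 1728) = 1

theorem OrdPt.mem {τ : ℍ} (h : OrdPt V p τ) : jj τ ∈ V := (V.valuation_le_one_iff _).1 h.n0.le

theorem OrdPt.G0 (hl : p.Prime) (hpV : V.valuation (p : ℂ) < 1) (P : Pkg p hl.pos) {τ : ℍ}
    (h : OrdPt V p τ) : G0 P V (jj τ) := by
  obtain ⟨e, M, he, hdet, htr, hfix⟩ := h.ord
  exact ⟨h.mem, ord_of_fix hl hpV P h.mem he hdet htr hfix, h.n0, h.n1⟩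

/-- the singular moduli in `L` in ordinary residue classes -/
def sm (V : ValuationSubring ℂ) (p : ℕ) (L : Subfield ℂ) : Set ℂ :=
  {c | c ∈ L ∧ (∃ τ', IsCM τ' ∧ jj τ' = c) ∧ ∃ τ, OrdPt V p τ ∧ V.valuation (c - jj τ) < 1}

theorem sm_mem {L : Subfield ℂ} {c : ℂ} (h : c ∈ sm V p L) : c ∈ intRing V L := by
  obtain ⟨h1, -, τ, h2, h3⟩ := h
  refine ⟨?_, h1⟩
  have h4 : c = (c - jj τ) + jj τ := by ring
  rw [h4]
  exact V.add_mem _ _ ((V.valuation_le_one_iff _).1 h3.le) h2.mem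

theorem sm_sep (hl : p.Prime) (hl2 : p ≠ 2) (hpV : V.valuation (p : ℂ) < 1) {L : Subfield ℂ}
    {c c' : ℂ} (hc : c ∈ sm V p L) (hc' : c' ∈ sm V p L)
    (h : V.valuation (c' - c) ≤ V.valuation (p : ℂ)) : c' = c := by
  by_contra hne
  obtain ⟨P⟩ := exists_pkg hl hl2
  obtain ⟨-, ⟨τ₀, hcm₀, hj₀⟩, τ, hτ, hlt⟩ := hc
  obtain ⟨-, ⟨τ₁, hcm₁, hj₁⟩, -⟩ := hc'
  have hG := (hτ.G0 hl hpV P).congr hlt
  rw [← hj₀] at hG
  obtain ⟨k, hk⟩ := cm_radius hl hl2 hpV P hcm₀ hcm₁ hG (by rw [hj₀, hj₁]; exact h.trans_lt hpV)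
    (by rw [hj₀, hj₁]; exact hne)
  rw [hj₀, hj₁] at hk
  have hp0 : V.valuation (p : ℂ) ≠ 0 := by
    rw [Valuation.ne_zero_iff]
    exact_mod_cast hl.ne_zero
  have h2 : 2 ≤ (p - 1) * p ^ k := by
    have h3 : 0 < p ^ k := pow_pos hl.pos k
    have h4 := hl.two_le
    calc 2 ≤ p - 1 := by omega
      _ = (p - 1) * 1 := (mul_one _).symm
      _ ≤ (p - 1) * p ^ k := Nat.mul_le_mul_left _ h3
  have h5 : V.valuation (c' - c) ^ ((p - 1) * p ^ k) < V.valuation (p : ℂ) := by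
    calc V.valuation (c' - c) ^ ((p - 1) * p ^ k) ≤ V.valuation (p : ℂ) ^ ((p - 1) * p ^ k) :=
          pow_le_pow_left₀ zero_le h _
      _ < V.valuation (p : ℂ) := by
          have h6 := pow_lt_pow_right_of_lt_one₀ (zero_lt_iff.2 hp0) hpV
            (show 1 < (p - 1) * p ^ k by omega)
          rwa [pow_one] at h6
  rw [hk] at h5
  exact lt_irrefl _ h5

theorem sm_card (hl : p.Prime) (hl2 : p ≠ 2) (hpV : V.valuation (p : ℂ) < 1) (L : Subfield ℂ)
    (hfin : Finite (intRing V L ⧸ Ideal.span {((p : ℕ) : intRing V L)})) :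
    (sm V p L).Finite ∧
      (sm V p L).ncard ≤ Nat.card (intRing V L ⧸ Ideal.span {((p : ℕ) : intRing V L)}) := by
  classical
  let f : sm V p L → intRing V L ⧸ Ideal.span {((p : ℕ) : intRing V L)} := fun c =>
    Ideal.Quotient.mk _ ⟨c, sm_mem c.2⟩
  have hf : Function.Injective f := by
    intro c c' h
    have h1 := (Ideal.Quotient.eq.1 h)
    rw [Ideal.mem_span_singleton] at h1
    obtain ⟨r, hr⟩ := h1
    have h2 : (c : ℂ) - c' = (p : ℂ) * r := by
      have := congrArg (fun z : intRing V L => (z : ℂ)) hr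
      push_cast at this
      exact this
    apply Subtype.ext
    refine sm_sep hl hl2 hpV c'.2 c.2 ?_
    rw [h2, map_mul]
    exact mul_le_of_le_one_right' ((V.valuation_le_one_iff _).2 r.2.1)
  have h1 : Finite (sm V p L) := Finite.of_injective f hf
  refine ⟨Set.toFinite _, ?_⟩
  have h2 := Nat.card_le_card_of_injective f hf
  rwa [Nat.card_coe_set_eq] at h2

/-- the points in the residue polydiscs of the ordinary CM points with pairwise not isogenous
coordinates, at most one coordinate near to the cusp, whose algebraic coordinates are in `L` -/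
def Om (V : ValuationSubring ℂ) (p : ℕ) (L : Subfield ℂ) (n : ℕ) : Set (Fin n → ℂ) :=
  {x | (∀ i, IsAlgebraic ℚ (x i) → x i ∈ L) ∧ ∃ τ : Fin n → Option ℍ,
    (∀ i z, τ i = some z → OrdPt V p z ∧ V.valuation (x i - jj z) < 1) ∧
    (∀ i, τ i = none → 1 < V.valuation (x i)) ∧
    (∀ i j z z', i ≠ j → τ i = some z → τ j = some z' → ¬ Isog (jj z) (jj z')) ∧
    ∀ i j, τ i = none → τ j = none → i = j}

theorem cls_facts (hl : p.Prime) (hl2 : p ≠ 2) (hpV : V.valuation (p : ℂ) < 1) {L : Subfield ℂ}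
    {n r : ℕ} (Z : SpecialDatum n r) {x : Fin n → ℂ} (hx : x ∈ Z.locus) (hxΩ : x ∈ Om V p L n) :
    (∀ i, Z.cls i = none → jj (Z.cm i) ∈ sm V p L) ∧
      ∀ i j, Z.cls i ≠ none → Z.cls i = Z.cls j → i = j := by
  classical
  obtain ⟨P⟩ := exists_pkg hl hl2
  obtain ⟨hxL, τ, hsome, hnone, hiso, hcusp⟩ := hxΩ
  obtain ⟨zz, hzz⟩ := hx
  have hnear : ∀ i z, τ i = some z → x i ∈ V := by
    intro i z hz
    obtain ⟨h1, h2⟩ := hsome i z hz
    have h3 : x i = jj z + (x i - jj z) := by ring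
    rw [h3]
    exact V.add_mem _ _ h1.mem ((V.valuation_le_one_iff _).1 h2.le)
  have hfar : ∀ i, τ i = none → x i ∉ V := by
    intro i hn hxV
    exact absurd ((V.valuation_le_one_iff _).2 hxV) (not_le.2 (hnone i hn))
  refine ⟨fun i hi => ?_, fun i j hi hij => ?_⟩
  · have hxi := (hzz i).1 hi
    rcases hτ : τ i with _ | z
    · exfalso
      apply hfar i hτ
      rw [hxi]
      exact mem_of_integral_int V (singular_modulus_integral _ (Z.isCM i))
    · obtain ⟨h1, h2⟩ := hsome i z hτ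
      have h3 : IsAlgebraic ℚ (x i) := by
        rw [hxi]
        exact ((singular_modulus_integral _ (Z.isCM i)).tower_top (A := ℚ)).isAlgebraic
      rw [← hxi]
      exact ⟨hxL i h3, ⟨Z.cm i, Z.isCM i, hxi.symm⟩, z, h1, h2⟩
  · by_contra hne
    obtain ⟨k, hk⟩ := Option.ne_none_iff_exists'.1 hi
    obtain ⟨w, hw1, hw2⟩ := (hzz i).2 k hk
    obtain ⟨w', hw1', hw2'⟩ := (hzz j).2 k (hij ▸ hk)
    obtain ⟨A, hA, hrel⟩ := rel_of_two (M := Z.mat i) (M' := Z.mat j) (z := zz k) (Z.det_pos i)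
      (Z.det_pos j) hw1 hw1'
    obtain ⟨A', hA', hrel'⟩ := rel_of_two (M := Z.mat j) (M' := Z.mat i) (z := zz k) (Z.det_pos j)
      (Z.det_pos i) hw1' hw1
    rcases hτi : τ i with _ | z <;> rcases hτj : τ j with _ | z'
    · exact hne (hcusp i j hτi hτj)
    · apply hfar i hτi
      rw [hw2]
      refine rel_mem hA' hrel' ?_
      rw [← hw2']
      exact hnear j z' hτj
    · apply hfar j hτj
      rw [hw2']
      refine rel_mem hA hrel ?_
      rw [← hw2]
      exact hnear i z hτi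
    · obtain ⟨h1, h2⟩ := hsome i z hτi
      obtain ⟨h3, h4⟩ := hsome j z' hτj
      refine hiso i j z z' hne hτi hτj (near_isog hl hl2 hpV P h1.cm h3.cm
        (h1.G0 hl hpV P) (h3.G0 hl hpV P) hA hrel ?_ ?_)
      · rw [← hw2]
        exact h2
      · rw [← hw2']
        exact h4

theorem locus_eq {n r : ℕ} (Z : SpecialDatum n r)
    (hinj : ∀ i j, Z.cls i ≠ none → Z.cls i = Z.cls j → i = j) :
    Z.locus = {y | ∀ i, Z.cls i = none → y i = jj (Z.cm i)} := by
  classical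
  ext y
  constructor
  · rintro ⟨z, hz⟩ i hi
    exact (hz i).1 hi
  · intro hy
    choose w hw using fun i => jj_surjective (y i)
    have hz : ∀ i, ∃ z : ℍ, Rel (Z.mat i) z (w i) := by
      intro i
      obtain ⟨z, hz⟩ := exists_rel (M := (Z.mat i).adjugate) (by
        rw [det_adj]
        exact Z.det_pos i) (w i)
      have h1 := rel_adj hz
      rw [Matrix.adjugate_adjugate' _, Fintype.card_fin, Nat.sub_self, pow_zero, one_smul] at h1
      exact ⟨z, h1⟩
    choose z hz using hz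
    choose idx hidx using Z.surj
    refine ⟨fun l => z (idx l), fun i => ⟨hy i, fun l hl => ⟨w i, ?_, (hw i).symm⟩⟩⟩
    have h1 : idx l = i := (hinj i (idx l) (by rw [hl]; simp) (by rw [hl, hidx])).symm
    have h2 := hz i
    simp only [h1]
    exact h2

end Pool.Agent.D0H93.ZE
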