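import Pool.Agent.N135.ZO.Lau

/-!
# The function `j` is surjective
-/

set_option autoImplicit false

namespace Pool.Agent.D0H93.ZE

open UpperHalfPlane ModularForm Function MatrixGroups H294ZP H294ZP.TBproof Filter Topology

theorem const_of_tendsto (f : ℍ → ℂ) (A : ℂ) (hI : Inv f) (hH : Hol f)
    (hlim : Tendsto f atImInfty (𝓝 A)) : ∀ τ, f τ = A := by
  have hslash : ∀ γ : SL(2, ℤ), f ∣[(0 : ℤ)] γ = f := by
    intro γ
    ext τ
    rw [SL_slash_apply]
    simp only [neg_zero, zpow_zero, mul_one]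
    have hdet := γ.det_coe
    rw [Matrix.det_fin_two] at hdet
    apply hI (γ 0 0) (γ 0 1) (γ 1 0) (γ 1 1) hdet τ (γ • τ)
    rw [coe_specialLinearGroup_apply]
    have hd : ((γ 1 0 : ℤ) : ℂ) * (τ : ℂ) + ((γ 1 1 : ℤ) : ℂ) ≠ 0 := by
      have := denom_ne_zero γ τ
      simpa [denom] using this
    simp only [eq_intCast, Complex.ofReal_intCast]
    rw [div_mul_cancel₀ _ hd]
  let g : ModularForm 𝒮ℒ 0 :=
    { toFun := f
      slash_action_eq' := by
        rintro _ ⟨γ, rfl⟩
        exact hslash γ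
      holo' := mdifferentiable_iff.2 hH
      bdd_at_cusps' := by
        intro c hc
        rw [OnePoint.isBoundedAt_iff_forall_SL2Z hc]
        intro γ _
        rw [hslash γ]
        exact hlim.isBigO_one ℝ }
  obtain ⟨c, hc⟩ := ModularFormClass.levelOne_weight_zero_const g
  have hf : f = Function.const ℍ c := hc
  have hcA : c = A := by
    rw [hf] at hlim
    exact tendsto_nhds_unique tendsto_const_nhds hlim
  intro τ
  rw [hf, ← hcA]; rfl

theorem jj_surjective : Function.Surjective jj := by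
  intro c
  by_contra hcon
  push Not at hcon
  have hne : ∀ τ, jj τ - c ≠ 0 := fun τ => sub_ne_zero.2 (hcon τ)
  have hI : Inv (fun τ => (jj τ - c)⁻¹) := by
    intro a b c' d hdet τ w hw
    simp only
    rw [H294ZP.inv_jj a b c' d hdet τ w hw]
  have hH : Hol (fun τ => (jj τ - c)⁻¹) := by
    have h1 : DifferentiableOn ℂ (jj ∘ ofComplex) {z | 0 < z.im} := H294ZP.hol_jj
    exact (h1.sub_const c).inv fun z _ => hne _
  have hlim : Tendsto (fun τ => (jj τ - c)⁻¹) atImInfty (𝓝 0) := by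
    have h1 := lau_limit 1 1 1 jj one_pos Pool.Agent.N135.ZO.hTA.2.2
    have h2 := tendsto_qq 1 one_pos
    have h3 : Tendsto (fun τ : ℍ => qq 1 τ ^ 1 * jj τ - qq 1 τ * c) atImInfty (𝓝 (1 - 0 * c)) :=
      h1.sub (h2.mul_const c)
    rw [zero_mul, sub_zero] at h3
    have h4 := h2.mul (h3.inv₀ one_ne_zero)
    rw [zero_mul] at h4
    refine h4.congr fun τ => ?_
    have hq := qq_ne_zero 1 τ
    have h5 := hne τ
    have h6 : qq 1 τ ^ 1 * jj τ - qq 1 τ * c = qq 1 τ * (jj τ - c) := by ring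
    rw [h6]
    field_simp
  have h1 := const_of_tendsto _ 0 hI hH hlim I
  exact inv_ne_zero (hne I) h1

end Pool.Agent.D0H93.ZE
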